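import Pool.Agent.Lib.MP_35204b_gt.Defs
import Pool.Agent.Lib.MP_35204b_gt.Basic

/-!
Question 1: if `A` is a minimal abelian topological group and `K` is a compact group, then every
closed subgroup of `A × K` is minimal.
-/

set_option autoImplicit false

namespace Pool.Agent.Results.MP_35204b_gt.MinimalTimesCompact

open Pool.Agent.Lib.MP_35204b_gt

universe u v

/-- For every minimal abelian (Hausdorff) topological group `A` and every compact Hausdorff
topological group `K`, the group `A × K` is c-minimal. -/
theorem result :
    ∀ (A : Type u) (K : Type v)
      [CommGroup A] [TopologicalSpace A] [IsTopologicalGroup A] [T2Space A]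
      [Group K] [TopologicalSpace K] [IsTopologicalGroup K] [T2Space K] [CompactSpace K],
      IsMinimalGroup A → IsCMinimalGroup (A × K) := by
  intro A K _ _ _ _ _ _ _ _ _ hA
  exact isCMinimalGroup_prod hA

end Pool.Agent.Results.MP_35204b_gt.MinimalTimesCompact
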